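import Pool.Agent.W662.SK.StmtsA
import Pool.Agent.W662.SK.Basic

/-!
Project SK, piece A9a: Kesten type bound for the free group of rank three.
-/

set_option autoImplicit false

open scoped InnerProductSpace ENNReal
open Pool.Agent.W662.SK

namespace Pool.Agent.W639.SK

noncomputable section

/-- the inverse letter -/
def iv (p : Fin 3 × Bool) : Fin 3 × Bool := (p.1, !p.2)

theorem iv_iv (p : Fin 3 × Bool) : iv (iv p) = p := by
  unfold iv; simp

/-- indicator of the words which start with `p` -/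
def ind (p : Fin 3 × Bool) (x : G3) : ℝ := if x.toWord.head? = some p then 1 else 0

theorem ind_nonneg (p : Fin 3 × Bool) (x : G3) : 0 ≤ ind p x := by
  unfold ind; split_ifs <;> norm_num

theorem ind_le_one (p : Fin 3 × Bool) (x : G3) : ind p x ≤ 1 := by
  unfold ind; split_ifs <;> norm_num

theorem sum_ind (x : G3) : ∑ p : Fin 3 × Bool, ind p x ≤ 1 := by
  unfold ind
  rcases h : x.toWord.head? with _ | q
  · simp
  · have : ∀ p : Fin 3 × Bool, (if (some q : Option (Fin 3 × Bool)) = some p then (1 : ℝ) else 0)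
        = if q = p then 1 else 0 := by
      intro p
      by_cases hq : q = p
      · rw [if_pos hq, if_pos (by rw [hq])]
      · rw [if_neg hq, if_neg (by intro h; exact hq (Option.some.inj h))]
    rw [Finset.sum_congr rfl (fun p _ => this p), Finset.sum_ite_eq]
    simp

theorem lt_inv_mul (p : Fin 3 × Bool) (x : G3) :
    ((lt p)⁻¹ * x).toWord = FreeGroup.reduce (iv p :: x.toWord) := by
  have h1 : (lt p)⁻¹ * x = FreeGroup.mk (iv p :: x.toWord) := by
    conv_lhs => rw [← FreeGroup.mk_toWord (x := x)]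
    unfold lt
    rw [FreeGroup.inv_mk, FreeGroup.mul_mk]
    rfl
  rw [h1, FreeGroup.toWord_mk]

theorem head_inv (p : Fin 3 × Bool) (x : G3) (h : x.toWord.head? ≠ some p) :
    ((lt p)⁻¹ * x).toWord.head? = some (iv p) := by
  rw [lt_inv_mul, FreeGroup.reduce.cons, FreeGroup.reduce_toWord]
  rcases hx : x.toWord with _ | ⟨q, tl⟩
  · rfl
  · rw [hx] at h
    have hne : ¬ ((iv p).1 = q.1 ∧ (iv p).2 = !q.2) := by
      rintro ⟨h1, h2⟩
      apply h
      have : q = p := by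
        unfold iv at h1 h2
        ext
        · simp only at h1; rw [h1]
        · simp only at h2
          have := congrArg (fun b => !b) h2
          simpa using this.symm
      rw [this]; rfl
    change (if (iv p).1 = q.1 ∧ (iv p).2 = !q.2 then tl else iv p :: q :: tl).head? = _
    rw [if_neg hne]
    rfl

theorem ind_add (p : Fin 3 × Bool) (x : G3) : 1 ≤ ind p x ∨ 1 ≤ ind (iv p) ((lt p)⁻¹ * x) := by
  by_cases h : x.toWord.head? = some p
  · left; unfold ind; rw [if_pos h]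
  · right; unfold ind; rw [if_pos (head_inv p x h)]

theorem young (A B u v : ℝ) (hu : 0 ≤ u) (hv : 0 ≤ v) (huv : 1 ≤ u ∨ 1 ≤ v) :
    2 * (A * B) ≤ 49 / 20 * (u * A ^ 2 + v * B ^ 2) + 20 / 49 * (A ^ 2 + B ^ 2) := by
  rcases huv with h | h
  · have h1 : 2 * (A * B) ≤ 49 / 20 * A ^ 2 + 20 / 49 * B ^ 2 := by
      nlinarith [sq_nonneg (49 * A - 20 * B)]
    have h2 : A ^ 2 ≤ u * A ^ 2 := le_mul_of_one_le_left (sq_nonneg _) h
    have h3 : 0 ≤ v * B ^ 2 := by positivity
    have h4 := sq_nonneg A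
    nlinarith
  · have h1 : 2 * (A * B) ≤ 20 / 49 * A ^ 2 + 49 / 20 * B ^ 2 := by
      nlinarith [sq_nonneg (20 * A - 49 * B)]
    have h2 : B ^ 2 ≤ v * B ^ 2 := le_mul_of_one_le_left (sq_nonneg _) h
    have h3 : 0 ≤ u * A ^ 2 := by positivity
    have h4 := sq_nonneg B
    nlinarith

theorem a9a : S_A9a := by
  intro E _ _ _ η
  have hN := norm_sq_hasSum η
  have hsum : ∀ p : Fin 3 × Bool, Summable (fun x : G3 => ind p x * ‖η x‖ ^ 2) := by
    intro p
    refine Summable.of_nonneg_of_le (fun x => mul_nonneg (ind_nonneg p x) (sq_nonneg _))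
      (fun x => ?_) hN.summable
    exact mul_le_of_le_one_left (sq_nonneg _) (ind_le_one p x)
  set S : Fin 3 × Bool → ℝ := fun p => ∑' x : G3, ind p x * ‖η x‖ ^ 2 with hS
  have hSs : ∀ p, HasSum (fun x : G3 => ind p x * ‖η x‖ ^ 2) (S p) := fun p => (hsum p).hasSum
  -- total mass
  have htot : ∑ p, S p ≤ ‖η‖ ^ 2 := by
    have h1 : HasSum (fun x : G3 => ∑ p, ind p x * ‖η x‖ ^ 2) (∑ p, S p) :=
      hasSum_sum (fun p _ => hSs p)
    refine hasSum_le (fun x => ?_) h1 hN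
    rw [← Finset.sum_mul]
    exact mul_le_of_le_one_left (sq_nonneg _) (sum_ind x)
  -- one letter
  have hone : ∀ p : Fin 3 × Bool, 2 * (⟪η, Lam E (lt p) η⟫_ℂ).re ≤
      49 / 20 * (S p + S (iv p)) + 20 / 49 * (‖η‖ ^ 2 + ‖η‖ ^ 2) := by
    intro p
    have h1 := Complex.hasSum_re (inner_hasSum η (Lam E (lt p) η))
    have h2 := h1.mul_left 2
    let e : G3 ≃ G3 := Equiv.mulLeft (lt p)⁻¹
    have h3 : HasSum (fun x : G3 => ind (iv p) ((lt p)⁻¹ * x) * ‖η ((lt p)⁻¹ * x)‖ ^ 2) (S (iv p)) :=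
      (e.hasSum_iff (f := fun x : G3 => ind (iv p) x * ‖η x‖ ^ 2)).2 (hSs (iv p))
    have h4 : HasSum (fun x : G3 => ‖η ((lt p)⁻¹ * x)‖ ^ 2) (‖η‖ ^ 2) :=
      (e.hasSum_iff (f := fun x : G3 => ‖η x‖ ^ 2)).2 hN
    have h5 := (((hSs p).add h3).mul_left (49 / 20)).add ((hN.add h4).mul_left (20 / 49))
    refine hasSum_le (fun x => ?_) h2 h5
    have h6 : (⟪η x, (Lam E (lt p) η) x⟫_ℂ).re ≤ ‖η x‖ * ‖η ((lt p)⁻¹ * x)‖ := by
      refine (Complex.re_le_norm _).trans ?_
      rw [Lam_apply]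
      exact norm_inner_le_norm _ _
    have h7 := young ‖η x‖ ‖η ((lt p)⁻¹ * x)‖ (ind p x) (ind (iv p) ((lt p)⁻¹ * x))
      (ind_nonneg _ _) (ind_nonneg _ _) (ind_add p x)
    linarith
  -- sum over the letters
  have hinv : ∑ p, S (iv p) = ∑ p, S p :=
    Equiv.sum_comp (Function.Involutive.toPerm iv iv_iv) S
  have hall : ∑ p, 2 * (⟪η, Lam E (lt p) η⟫_ℂ).re ≤
      ∑ p : Fin 3 × Bool, (49 / 20 * (S p + S (iv p)) + 20 / 49 * (‖η‖ ^ 2 + ‖η‖ ^ 2)) :=
    Finset.sum_le_sum (fun p _ => hone p)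
  rw [← Finset.mul_sum, Finset.sum_add_distrib, ← Finset.mul_sum, Finset.sum_add_distrib, hinv,
    Finset.sum_const, Finset.card_univ, Fintype.card_prod, Fintype.card_fin, Fintype.card_bool] at hall
  rw [Complex.re_sum]
  have h8 : 0 ≤ ‖η‖ ^ 2 := sq_nonneg _
  simp only [nsmul_eq_mul] at hall
  push_cast at hall
  nlinarith

end

end Pool.Agent.W639.SK
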